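import Pool.Agent.Helper69.ISO.Sheet
import Pool.Agent.Helper79.PN.NB1
import Pool.Agent.Helper97.PN.NB2

/-!
Project ISO, row M5: pointwise bounds at all vertices of index 1 or 3.
-/

set_option autoImplicit false

open scoped Classical

namespace Pool.Agent.Helper93.ISO

open Pool.Agent.Helper79.PN Pool.Agent.Helper69.ISO

theorem mem_Bx {n : ℕ} {D : Lam} : D ∈ Bx n ↔ ∀ i, -(n : ℤ) ≤ D i ∧ D i ≤ n := by
  unfold Bx
  rw [Fintype.mem_piFinset]
  simp only [Finset.mem_Icc]

theorem zero_mem_Bx (n : ℕ) : (0 : Lam) ∈ Bx n := by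
  rw [mem_Bx]
  intro i
  simp

theorem near_nonneg {P : Pen} {a : Lam → ℝ} {n : ℕ} {c : Lam} {M : ℝ} (h : Near P a n c M) :
    0 ≤ M := (abs_nonneg _).trans (h 0 (zero_mem_Bx n))

/-- moving the centre -/
theorem near_move {P : Pen} {a : Lam → ℝ} {n n' d : ℕ} {K c : Lam} {M : ℝ}
    (h : Near P a n K M) (hc : ∀ i, -(d : ℤ) ≤ (c - K) i ∧ (c - K) i ≤ d) (hd : n' + d ≤ n) :
    Near P a n' c M := by
  intro D hD
  have h1 : c + D = K + ((c - K) + D) := by abel
  rw [h1]
  refine h _ ?_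
  rw [mem_Bx] at hD ⊢
  intro i
  obtain ⟨d1, d2⟩ := hD i
  obtain ⟨c1, c2⟩ := hc i
  have hd' : (n' : ℤ) + d ≤ n := by exact_mod_cast hd
  rw [Pi.add_apply]
  constructor <;> linarith

theorem e_bd (i j : ZMod 5) : 0 ≤ e i j ∧ e i j ≤ 1 := by
  unfold e
  by_cases h : j = i
  · rw [h, Pi.single_eq_same]; exact ⟨zero_le_one, le_rfl⟩
  · rw [Pi.single_eq_of_ne h]; exact ⟨le_rfl, zero_le_one⟩

/-- the indicator of a point -/
noncomputable def ip (K : Lam) : Lam → ℝ := fun K' => if K' = K then 1 else 0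

theorem ip_nonneg (K K' : Lam) : 0 ≤ ip K K' := by
  unfold ip
  split_ifs <;> norm_num

theorem ip_sup {P : Pen} {K : Lam} (hK : InV P K) : Sup P (ip K) := by
  intro K' hK'
  unfold ip
  rw [if_neg]
  rintro rfl
  exact hK' hK

theorem ip_adj {K w : Lam} (h : Nb K w) : 1 ≤ adj (ip K) w := by
  unfold adj
  obtain ⟨i, hi⟩ := h
  have h1 : (1 : ℝ) ≤ ip K (w + e i) + ip K (w - e i) := by
    rcases hi with h2 | h2
    · have h3 : ip K (w - e i) = 1 := by
        unfold ip
        rw [if_pos]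
        rw [h2]; abel
      rw [h3]
      linarith [ip_nonneg K (w + e i)]
    · have h3 : ip K (w + e i) = 1 := by
        unfold ip
        rw [if_pos]
        rw [h2]; abel
      rw [h3]
      linarith [ip_nonneg K (w - e i)]
  refine h1.trans ?_
  exact Finset.single_le_sum (f := fun i => ip K (w + e i) + ip K (w - e i))
    (fun i _ => add_nonneg (ip_nonneg _ _) (ip_nonneg _ _)) (Finset.mem_univ i)

theorem ip_three {K x y z : Lam} (h : 1 ≤ ip K x + ip K y + ip K z) : K = x ∨ K = y ∨ K = z := by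
  by_contra hc
  push Not at hc
  obtain ⟨h1, h2, h3⟩ := hc
  unfold ip at h
  rw [if_neg h1.symm, if_neg h2.symm, if_neg h3.symm] at h
  norm_num at h

/-- neighbours of the vertices of degree 3 of index 2 -/
theorem caseT2 (hG1 : ST_G1) (hG2 : ST_G2) {C3 C4 : ℝ} (h3 : 0 ≤ C3) (h4 : 0 ≤ C4)
    (hM3 : ∀ (P : Pen) (a : Lam → ℝ) (c : Lam) (M : ℝ), Sup4 P a →
      Orth P a → Wh P c → Near P a 20 c M → |a c| ≤ C3 * M ∧ ∀ j, |a (rim c j)| ≤ C3 * M)
    (hM4 : ∀ (P : Pen) (a : Lam → ℝ) (c : Lam) (m : ZMod 5) (M : ℝ),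
      Sup4 P a → Orth P a → X1 P c m → Near P a 30 c M → |a c| ≤ C4 * M ∧
      |a (rim c (m + 1))| ≤ C4 * M ∧ |a (rim c (m - 1))| ≤ C4 * M ∧ |a (rim c (m - 3))| ≤ C4 * M)
    (P : Pen) (a : Lam → ℝ) (K w : Lam) (j : ZMod 5) (M : ℝ) (ha : Sup4 P a) (ho : Orth P a)
    (hw : T2 P w j) (hK : K = w + e (j + 2) ∨ K = w + e (j - 2)) (hN : Near P a 40 K M) :
    |a K| ≤ (C3 + C4) * M := by
  have hM := near_nonneg hN
  obtain ⟨n1, -, -, n4, -⟩ := Pool.Agent.Helper97.PN.st_NB2 P w j hw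
  have hcn : P.n (w - e j) = 1 := by
    rw [P.n_sub, hw.1]; norm_num
  have hwc : w - e j + e j = w := by abel
  have hr : K = rim (w - e j) j ∨ K = rim (w - e j) (j - 2) := by
    unfold rim
    rcases hK with h | h
    · left
      rw [h, hwc]
    · right
      rw [h, m2p2]
      abel
  have hmove : ∀ i, -((2 : ℕ) : ℤ) ≤ (w - e j - K) i ∧ (w - e j - K) i ≤ (2 : ℕ) := by
    intro i
    obtain ⟨b1, b2⟩ := e_bd j i
    rcases hK with h | h
    · obtain ⟨b3, b4⟩ := e_bd (j + 2) i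
      rw [h]
      have : (w - e j - (w + e (j + 2))) i = -(e j i) - e (j + 2) i := by
        simp only [Pi.sub_apply, Pi.add_apply]; ring
      rw [this]
      push_cast
      constructor <;> linarith
    · obtain ⟨b3, b4⟩ := e_bd (j - 2) i
      rw [h]
      have : (w - e j - (w + e (j - 2))) i = -(e j i) - e (j - 2) i := by
        simp only [Pi.sub_apply, Pi.add_apply]; ring
      rw [this]
      push_cast
      constructor <;> linarith
  have hX : C3 * M ≤ (C3 + C4) * M := by nlinarith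
  have hY : C4 * M ≤ (C3 + C4) * M := by nlinarith
  rcases hG1 P (w - e j) hcn n1 n4 with hc | ⟨m, hc⟩
  · obtain ⟨-, h5⟩ := hM3 P a (w - e j) M ha ho hc (near_move hN hmove (by norm_num))
    rcases hr with h | h
    · rw [h]; exact (h5 _).trans hX
    · rw [h]; exact (h5 _).trans hX
  · obtain ⟨-, h6, h7, h8⟩ := hM4 P a (w - e j) m M ha ho hc (near_move hN hmove (by norm_num))
    have h9 := hG2.2.1 P (w - e j) m j hc (by rw [hwc]; exact hw)
    rcases h9 with rfl | rfl
    · rcases hr with h | h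
      · rw [h]; exact h6.trans hY
      · rw [h, p1m2]; exact h7.trans hY
    · rcases hr with h | h
      · rw [h]; exact h7.trans hY
      · have e1 : m - 1 - 2 = m - 3 := by ring
        rw [h, e1]; exact h8.trans hY

theorem M5 (hG1 : ST_G1) (hG2 : ST_G2) (hT4C : ST_T4C) (hK0 : ST_K0) (hM3 : ST_M3)
    (hM4 : ST_M4) : ST_M5 := by
  obtain ⟨C3, h3, hM3⟩ := hM3
  obtain ⟨C4, h4, hM4⟩ := hM4
  refine ⟨C3 + C4, add_nonneg h3 h4, ?_⟩
  intro P a K M ha ho hnK hN
  have hM := near_nonneg hN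
  have hX : C3 * M ≤ (C3 + C4) * M := by nlinarith
  have hY : C4 * M ≤ (C3 + C4) * M := by nlinarith
  have h0 : 0 ≤ (C3 + C4) * M := mul_nonneg (add_nonneg h3 h4) hM
  by_cases hz : ¬ InV P K ∨ IsT P K
  · rw [ha K hz, abs_zero]
    exact h0
  push Not at hz
  obtain ⟨hv, hT⟩ := hz
  have hself : ∀ i, -((0 : ℕ) : ℤ) ≤ (K - K) i ∧ (K - K) i ≤ (0 : ℕ) := by
    intro i
    simp
  rcases hnK with hn | hn
  · rcases hG1 P K hn hv hT with hc | ⟨m, hc⟩
    · exact (hM3 P a K M ha ho hc (near_move hN hself (by norm_num))).1.trans hX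
    · exact (hM4 P a K m M ha ho hc (near_move hN hself (by norm_num))).1.trans hY
  · by_cases hnb : ∀ w, IsT P w → ¬ Nb K w
    · rw [hK0 P a K ho hv hT hnb, abs_zero]
      exact h0
    push Not at hnb
    obtain ⟨w, hwT, hnw⟩ := hnb
    have hnw2 : P.n w = 4 ∨ P.n w = 2 := by
      obtain ⟨i, hi | hi⟩ := hnw
      · left; rw [hi, P.n_add, hn]; norm_num
      · right; rw [hi, P.n_sub, hn]; norm_num
    rcases hnw2 with hw4 | hw2
    · -- index 4
      obtain ⟨k, hk⟩ := (isT_4 hw4).1 hwT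
      obtain ⟨t1, t2⟩ := hT4C P w k hk
      obtain ⟨-, -, -, -, -, -, hs⟩ := st_NB1 P.mir (-w) k hk
      have hv' : InV P.mir (-K) := inv_mir.2 hv
      have hnb' : Nb (-K) (-w) := by
        obtain ⟨i, hi | hi⟩ := hnw
        · exact ⟨i, Or.inr (by rw [hi]; abel)⟩
        · exact ⟨i, Or.inl (by rw [hi]; abel)⟩
      have h5 := ip_adj hnb'
      rw [hs _ (ip_sup hv')] at h5
      rcases ip_three h5 with h6 | h6 | h6
      · -- K = w - e k
        refine caseT2 hG1 hG2 h3 h4 hM3 hM4 P a K (w - e k - e (k + 1)) (k + 3) M ha ho t1 ?_ hN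
        right
        have e1 : k + 3 - 2 = k + 1 := by
          have : ∀ k : ZMod 5, k + 3 - 2 = k + 1 := by decide
          exact this k
        rw [e1, sub_add_cancel]
        have := neg_eq_iff_eq_neg.1 h6
        rw [this]; abel
      · refine caseT2 hG1 hG2 h3 h4 hM3 hM4 P a K (w - e k - e (k + 1)) (k + 3) M ha ho t1 ?_ hN
        left
        have e1 : k + 3 + 2 = k := by
          have : ∀ k : ZMod 5, k + 3 + 2 = k := by decide
          exact this k
        rw [e1]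
        have := neg_eq_iff_eq_neg.1 h6
        rw [this]; abel
      · refine caseT2 hG1 hG2 h3 h4 hM3 hM4 P a K (w - e k - e (k - 1)) (k - 3) M ha ho t2 ?_ hN
        right
        have e1 : k - 3 - 2 = k := by
          have : ∀ k : ZMod 5, k - 3 - 2 = k := by decide
          exact this k
        rw [e1]
        have := neg_eq_iff_eq_neg.1 h6
        rw [this]; abel
    · -- index 2
      obtain ⟨j, hj⟩ := (isT_2 hw2).1 hwT
      obtain ⟨-, -, -, -, -, -, hs⟩ := Pool.Agent.Helper97.PN.st_NB2 P w j hj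
      have h5 := ip_adj hnw
      rw [hs _ (ip_sup hv)] at h5
      rcases ip_three h5 with h6 | h6 | h6
      · exfalso
        rw [h6, P.n_sub, hw2] at hn
        norm_num at hn
      · exact caseT2 hG1 hG2 h3 h4 hM3 hM4 P a K w j M ha ho hj (Or.inl h6) hN
      · exact caseT2 hG1 hG2 h3 h4 hM3 hM4 P a K w j M ha ho hj (Or.inr h6) hN

end Pool.Agent.Helper93.ISO
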