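import Pool.Agent.Helper69.ISO.Sheet
import Pool.Agent.Helper79.PN.Lem

/-!
Project ISO, row T4C: the neighbours of a vertex of degree 3 of index 4 belong to hubs.
-/

set_option autoImplicit false

open scoped Classical

namespace Pool.Agent.Helper93.ISO

open Pool.Agent.Helper79.PN Pool.Agent.Helper69.ISO

theorem i1 (k : ZMod 5) : k + 3 + 2 = k := by revert k; decide
theorem i2 (k : ZMod 5) : k + 3 - 2 = k + 1 := by revert k; decide
theorem i3 (k : ZMod 5) : k - 3 + 2 = k - 1 := by revert k; decide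
theorem i4 (k : ZMod 5) : k - 3 - 2 = k := by revert k; decide

theorem T4C : ST_T4C := by
  intro P w k h
  obtain ⟨hn, hv, h1, h2⟩ := h
  rw [Pen.mir_n, neg_neg] at hn
  have hn4 : P.n w = 4 := by omega
  rw [inv_mir, inv4 hn4] at hv
  rw [Pen.mir_h, neg_neg] at h1 h2
  have a0 := hv k
  have a1 := hv (k + 1)
  have a4 := hv (k - 1)
  have a2 := hv (k + 2)
  have a3 := hv (k - 2)
  have hg1 := g_gt
  have hg2 := g_lt
  obtain ⟨s00, s01, s04, s02, s03⟩ := P.stp w k
  have key : ∀ i j : ZMod 5, P.h (w - e k - e i) j =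
      P.h w j - (P.h (w + e k) j - P.h w j) - (P.h (w + e i) j - P.h w j) := by
    intro i j
    rw [P.h_sub, P.h_sub_add, P.h_add w i j]
    ring
  have hnn : ∀ i : ZMod 5, P.n (w - e k - e i) = 2 := by
    intro i
    rw [P.n_sub, P.n_sub, hn4]
    norm_num
  constructor
  · obtain ⟨t0, t1, t4, t2, t3⟩ := P.stp1 w k
    refine ⟨hnn _, ?_, ?_, ?_⟩
    · rw [inv2 (hnn _)]
      intro j
      refine all5 k (p := fun j => P.h (w - e k - e (k + 1)) j < (g + 1) / 2) ?_ ?_ ?_ ?_ ?_ j
      · simp only [key]; rw [s00, t0]; linarith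
      · simp only [key]; rw [s01, t1]; linarith
      · simp only [key]; rw [s04, t4]; linarith
      · simp only [key]; rw [s02, t2]; linarith
      · simp only [key]; rw [s03, t3]; linarith
    · have e1 : k + 3 + 2 = k := i1 k
      rw [e1, key, s00, t0]; linarith
    · have e1 : k + 3 - 2 = k + 1 := i2 k
      rw [e1, key, s01, t1]; linarith
  · obtain ⟨t0, t1, t4, t2, t3⟩ := P.stp4 w k
    refine ⟨hnn _, ?_, ?_, ?_⟩
    · rw [inv2 (hnn _)]
      intro j
      refine all5 k (p := fun j => P.h (w - e k - e (k - 1)) j < (g + 1) / 2) ?_ ?_ ?_ ?_ ?_ j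
      · simp only [key]; rw [s00, t0]; linarith
      · simp only [key]; rw [s01, t1]; linarith
      · simp only [key]; rw [s04, t4]; linarith
      · simp only [key]; rw [s02, t2]; linarith
      · simp only [key]; rw [s03, t3]; linarith
    · have e1 : k - 3 + 2 = k - 1 := i3 k
      rw [e1, key, s04, t4]; linarith
    · have e1 : k - 3 - 2 = k := i4 k
      rw [e1, key, s00, t0]; linarith

end Pool.Agent.Helper93.ISO
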