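import Pool.Agent.Helper69.ISO.Sheet
import Pool.Agent.Helper79.PN.Lem

/-!
Project ISO, row G1: the vertices of index 1 and degree at least 4.
-/

set_option autoImplicit false

open scoped Classical

namespace Pool.Agent.Helper93.ISO

open Pool.Agent.Helper79.PN Pool.Agent.Helper69.ISO

theorem G1 : ST_G1 := by
  intro P c hn hv hT
  by_cases h : ∀ j, P.h c j < (g - 1) / 2
  · exact Or.inl ⟨hn, hv, h⟩
  · push Not at h
    obtain ⟨m, hm⟩ := h
    have hm1 : (g - 1) / 2 < P.h c m := lt_of_le_of_ne hm (nsa hn m).symm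
    refine Or.inr ⟨m, hn, hv, hm1, ?_, ?_⟩
    · by_contra h1
      push Not at h1
      have h2 : (g - 1) / 2 < P.h c (m + 1) := lt_of_le_of_ne h1 (nsa hn _).symm
      apply hT
      refine ⟨m - 2, Or.inl ⟨hn, hv, ?_, ?_⟩⟩
      · rw [m2p2]; exact hm1
      · rw [m2m2]; exact h2
    · by_contra h1
      push Not at h1
      have h2 : (g - 1) / 2 < P.h c (m - 1) := lt_of_le_of_ne h1 (nsa hn _).symm
      apply hT
      refine ⟨m + 2, Or.inl ⟨hn, hv, ?_, ?_⟩⟩
      · rw [p2p2]; exact h2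
      · rw [p2m2]; exact hm1

end Pool.Agent.Helper93.ISO
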